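import Pool.Agent.H7.TRI.Stmts

/-! Board `tri`, row AR2. -/

namespace Pool.TRI

theorem AR2_thm : AR2Stmt := by
  intro d m s x i l j2 jp j3 I B hd hm hsx hs hx hi hl hj2 hjp hj3 hI hx3 hxs hcov hjI hjl hB
  have hmin : min (2 * s) (d + x - 4) = d + x - 4 := min_eq_right (by omega)
  rw [hmin]
  refine le_trans (min_le_right _ _) ?_
  -- the coefficients of `j2` and `jp`
  have hM : ∃ M : ℤ, M = max 0 (5 - x) ∧ 0 ≤ 2 * d - 5 * x + 5 - 2 * M ∧
      0 ≤ 3 * d - 7 * x + 8 - 2 * M := by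
    refine ⟨_, rfl, ?_, ?_⟩
    · rcases le_total 0 (5 - x) with h | h
      · rw [max_eq_right h]
        omega
      · rw [max_eq_left h]
        omega
    · rcases le_total 0 (5 - x) with h | h
      · rw [max_eq_right h]
        omega
      · rw [max_eq_left h]
        omega
  obtain ⟨M, hMe, hc2, hcp⟩ := hM
  rw [← hMe] at hB
  have hs' : s = d - x := by omega
  subst hs'
  have hi' : i = x - l - (j2 + jp + j3) := by omega
  subst hi'
  have a1 : 0 ≤ (x - l - (j2 + jp + j3) + 2 * (j2 + jp + j3) - 2 * m - 2 * I) * (3 * (d - 1)) :=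
    mul_nonneg (by omega) (by omega)
  have a2 : 0 ≤ (l - jp) * (3 * d - 2 * x + 1) := mul_nonneg (by omega) (by omega)
  have a3 : 0 ≤ (3 * I - j2) * (2 * (d - 1)) := mul_nonneg (by omega) (by omega)
  have a4 : 0 ≤ j2 * (2 * d - 5 * x + 5 - 2 * M) := mul_nonneg hj2 hc2
  have a5 : 0 ≤ jp * (3 * d - 7 * x + 8 - 2 * M) := mul_nonneg hjp hcp
  nlinarith [a1, a2, a3, a4, a5, hB]

end Pool.TRI
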