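import Pool.Agent.H7.TRI.Stmts

/-! Board `tri`, row BK1. -/

namespace Pool.TRI

theorem BK1_thm : BK1Stmt := by
  intro d s x k hd hsx hx hk hks
  have hx8 : 8 ≤ x := by omega
  have hs2 : 2 ≤ s := by omega
  rcases (by omega : k = 2 ∨ k = 3 ∨ k = 4 ∨ 5 ≤ k) with h | h | h | h
  · subst h
    have hmu : mu s x 2 = 0 := by
      unfold mu
      have h1 : max 0 (3 * 2 - x - 1) = 0 := max_eq_left (by omega)
      rw [h1]
      exact min_eq_right (by omega)
    unfold bk
    rw [hmu]
    constructor
    · linarith
    · intro h3
      omega
  · subst h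
    have hmu : mu s x 3 = 0 := by
      unfold mu
      have h1 : max 0 (3 * 3 - x - 1) = 0 := max_eq_left (by omega)
      rw [h1]
      exact min_eq_right (by omega)
    unfold bk
    rw [hmu]
    constructor
    · linarith
    · intro _
      linarith
  · subst h
    have hmu : mu s x 4 ≤ 3 := by
      unfold mu
      have h1 : max 0 (3 * 4 - x - 1) ≤ 3 := max_le (by omega) (by omega)
      exact le_trans (min_le_right _ _) h1
    unfold bk
    constructor
    · linarith
    · intro _
      linarith
  · have hmu : mu s x k ≤ s := by
      unfold mu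
      exact min_le_left _ _
    have h1 : 0 ≤ k * (s - mu s x k) := mul_nonneg (by omega) (by omega)
    have h2 : 0 ≤ (k - 5) * (2 * s - 2 - k) := mul_nonneg (by omega) (by omega)
    have h3 : 2 * (s + 1) * (k - 1) - k * (k - 1) - 5 * s
        = (3 * s - 12) + (k - 5) * (2 * s - 2 - k) := by ring
    unfold bk
    constructor
    · linarith
    · intro _
      linarith

end Pool.TRI
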